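import Pool.Agent.Helper77.SO.St

/-!
# MP_7a9ddc_co, project SO: module CS (not all corners of a face are blocked)
-/

set_option autoImplicit false

namespace Pool.Agent.Helper82.SO.CS

open Equiv Equiv.Perm Pool.Agent.Helper35.PM Pool.Agent.Helper77.HY Pool.Agent.Helper77.OF4
  Pool.Agent.Helper77.SO

theorem z2 (x : ZMod 2) : x = 0 ∨ x = 1 := by
  revert x
  decide

theorem fc_pow {V D : Type} {M : PMap V D} {p : D → ZMod 2} (h : FC M p) (d : D) (i : ℕ) :
    p ((M.φ ^ i) d) = p d := by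
  induction i with
  | zero => rfl
  | succ i ih => rw [pow_succ', Perm.mul_apply, h, ih]

/-- the claim of the proof -/
theorem claim (hUn : StUn) {V D : Type} [Finite D] (M : PMap V D) (L : ℕ) (d : D) (hL : Even L)
    (hHC : HC M L) (hDg : ∀ i : ℕ, Dg M L ((M.φ ^ i) d)) (j : ℕ) :
    ∀ i : ℕ, ∃ p, FC M p ∧ Sep M p ∧ cut M p ≤ 2 * L + 2 ∧ p d = 0 ∧
      ∀ s < j + 2, p (M.ι ((M.φ ^ (i + s)) d)) = 1 := by
  induction j with
  | zero =>
    intro i
    obtain ⟨p, hp, hs, h1, h2, h3⟩ := hDg i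
    have hd := fc_pow hp d i
    rw [hd] at h1 h2
    have hc : cut M (fun a => p a + p d) = cut M p := by
      unfold cut
      congr 1
      ext x
      show p (M.ι x) + p d ≠ p x + p d ↔ p (M.ι x) ≠ p x
      rw [Ne, add_left_inj]
    have key : ∀ x : D, p x ≠ p d → p x + p d = 1 := by
      intro x hx
      revert hx
      rcases z2 (p x) with h4 | h4 <;> rcases z2 (p d) with h5 | h5 <;> rw [h4, h5] <;> decide
    refine ⟨fun a => p a + p d, ?_, ?_, ?_, ?_, ?_⟩
    · intro x
      show p (M.φ x) + p d = p x + p d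
      rw [hp x]
    · obtain ⟨a, b, ha, hb, hab⟩ := hs
      refine ⟨a, b, ha, hb, ?_⟩
      show p a + p d ≠ p b + p d
      rw [Ne, add_left_inj]
      exact hab
    · rw [hc]
      exact h3
    · show p d + p d = 0
      rcases z2 (p d) with h5 | h5 <;> rw [h5] <;> decide
    · intro s hs
      have h6 : s = 0 ∨ s = 1 := by omega
      rcases h6 with h6 | h6
      · rw [h6, add_zero]
        exact key _ h1
      · rw [h6, pow_succ', Perm.mul_apply]
        exact key _ h2
  | succ j ih =>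
    intro i
    obtain ⟨p, hp, sp, cp, pd, pi⟩ := ih i
    obtain ⟨q, hq, sq, cq, qd, qi⟩ := ih (i + 1)
    obtain ⟨h1, h2, h3⟩ := hUn V D M L p q ((M.φ ^ (i + 1)) d) hL hHC hp hq sp sq cp cq
      ((fc_pow hp d _).trans pd) ((fc_pow hq d _).trans qd) (pi 1 (by omega)) (qi 0 (by omega))
    refine ⟨_, h1, h2, h3, ?_, ?_⟩
    · show p d + q d + p d * q d = 0
      rw [pd, qd]
      decide
    · intro s hs
      show p (M.ι ((M.φ ^ (i + s)) d)) + q (M.ι ((M.φ ^ (i + s)) d)) +
        p (M.ι ((M.φ ^ (i + s)) d)) * q (M.ι ((M.φ ^ (i + s)) d)) = 1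
      rcases Nat.lt_or_ge s (j + 2) with h4 | h4
      · rw [pi s h4]
        rcases z2 (q (M.ι ((M.φ ^ (i + s)) d))) with h5 | h5 <;> rw [h5] <;> decide
      · have h5 : q (M.ι ((M.φ ^ (i + s)) d)) = 1 := by
          have h6 : i + s = i + 1 + (s - 1) := by omega
          rw [h6]
          exact qi (s - 1) (by omega)
        rw [h5]
        rcases z2 (p (M.ι ((M.φ ^ (i + s)) d))) with h6 | h6 <;> rw [h6] <;> decide

theorem main (hUn : StUn) : StCs := by
  classical
  intro V D _ M L d hL hHC hn hcase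
  by_contra hcon
  push Not at hcon
  obtain ⟨p, hp, sp, cp, pd, pi⟩ := claim hUn M L d hL hHC hcon (Function.minimalPeriod M.φ d) 0
  set n := Function.minimalPeriod M.φ d with hn_def
  have hper : d ∈ Function.periodicPts M.φ := by
    rw [← Function.minimalPeriod_pos_iff_mem_periodicPts]
    omega
  -- the face
  let F : Set D := {x | M.φ.SameCycle d x}
  have hF : F = (fun i => (M.φ)^[i] d) '' Set.Iio n := by
    ext x
    constructor
    · intro hx
      obtain ⟨k, hk⟩ := Equiv.Perm.SameCycle.exists_nat_pow_eq hx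
      refine ⟨k % n, Nat.mod_lt _ (by omega), ?_⟩
      show (M.φ)^[k % n] d = x
      rw [hn_def, Function.iterate_mod_minimalPeriod_eq, Equiv.Perm.iterate_eq_pow]
      exact hk
    · rintro ⟨k, -, hk⟩
      refine ⟨(k : ℤ), ?_⟩
      rw [zpow_natCast, ← Equiv.Perm.iterate_eq_pow]
      exact hk
  have hFcard : F.ncard = n := by
    rw [hF, Set.ncard_image_of_injOn Function.iterate_injOn_Iio_minimalPeriod,
      ← Finset.coe_Iio, Set.ncard_coe_finset, Nat.card_Iio]
  have pF : ∀ x ∈ F, p x = 0 ∧ p (M.ι x) = 1 := by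
    intro x hx
    rw [hF] at hx
    obtain ⟨k, hk, rfl⟩ := hx
    have hk' : k < n := hk
    show p ((M.φ)^[k] d) = 0 ∧ p (M.ι ((M.φ)^[k] d)) = 1
    rw [Equiv.Perm.iterate_eq_pow]
    refine ⟨(fc_pow hp d k).trans pd, ?_⟩
    have h1 := pi k (by omega)
    rw [zero_add] at h1
    exact h1
  let F' : Set D := M.ι '' F
  have pF' : ∀ x ∈ F', p x = 1 ∧ p (M.ι x) = 0 := by
    rintro _ ⟨x, hx, rfl⟩
    rw [M.inv x]
    exact ⟨(pF x hx).2, (pF x hx).1⟩
  have hF'card : F'.ncard = n := by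
    rw [Set.ncard_image_of_injective F M.inv.injective, hFcard]
  have hdisj : Disjoint F F' := by
    rw [Set.disjoint_left]
    intro x h1 h2
    exact absurd ((pF x h1).1.symm.trans (pF' x h2).1) (by decide)
  have hU : (F ∪ F').ncard = 2 * n := by
    rw [Set.ncard_union_eq hdisj, hFcard, hF'card]
    ring
  have hsub : F ∪ F' ⊆ {x | p (M.ι x) ≠ p x} := by
    rintro x (hx | hx)
    · show p (M.ι x) ≠ p x
      rw [(pF x hx).1, (pF x hx).2]
      decide
    · show p (M.ι x) ≠ p x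
      rw [(pF' x hx).1, (pF' x hx).2]
      decide
  have hge : 2 * n ≤ cut M p := by
    rw [← hU]
    exact Set.ncard_le_ncard hsub (Set.toFinite _)
  rcases hcase with hev | hbig
  swap
  · omega
  -- the even case
  have hFφ : ∀ x, M.φ x ∈ F ↔ x ∈ F := fun x => Equiv.Perm.sameCycle_apply_right
  have hOdd : ∀ x, OddD M x → x ∉ F := by
    intro x hx hxF
    rw [hF] at hxF
    obtain ⟨k, -, rfl⟩ := hxF
    have h1 : Odd (Function.minimalPeriod M.φ ((M.φ)^[k] d)) := hx
    rw [Function.minimalPeriod_apply_iterate hper, ← hn_def] at h1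
    exact (Nat.not_odd_iff_even.2 hev) h1
  let s : D → ZMod 2 := fun x => if x ∈ F then 1 else p x
  have hs1 : ∀ x ∈ F, s x = 1 := fun x hx => if_pos hx
  have hs2 : ∀ x, x ∉ F → s x = p x := fun x hx => if_neg hx
  have hsFC : FC M s := by
    intro x
    by_cases hx : x ∈ F
    · rw [hs1 x hx, hs1 _ ((hFφ x).2 hx)]
    · rw [hs2 x hx, hs2 _ (fun h => hx ((hFφ x).1 h)), hp x]
  have hsSep : Sep M s := by
    obtain ⟨a, b, ha, hb, hab⟩ := sp
    refine ⟨a, b, ha, hb, ?_⟩
    rw [hs2 a (hOdd a ha), hs2 b (hOdd b hb)]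
    exact hab
  have hcs := hHC s hsFC hsSep
  have hsub2 : {x | s (M.ι x) ≠ s x} ⊆ {x | p (M.ι x) ≠ p x} \ (F ∪ F') := by
    intro x hx
    have hx' : s (M.ι x) ≠ s x := hx
    have n1 : x ∉ F := by
      intro h1
      have h2 : M.ι x ∉ F := fun h3 => by
        have h4 := (pF _ h3).1
        rw [(pF x h1).2] at h4
        exact absurd h4 (by decide)
      rw [hs1 x h1, hs2 _ h2, (pF x h1).2] at hx'
      exact hx' rfl
    have n2 : M.ι x ∉ F := by
      intro h1
      have h2 := (pF _ h1).2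
      rw [M.inv x] at h2
      rw [hs1 _ h1, hs2 x n1, h2] at hx'
      exact hx' rfl
    have n3 : x ∉ F' := by
      rintro ⟨y, hy, rfl⟩
      rw [M.inv y] at n2
      exact n2 hy
    rw [hs2 x n1, hs2 _ n2] at hx'
    exact ⟨hx', fun h => h.elim n1 n3⟩
  have h5 : cut M s ≤ cut M p - 2 * n := by
    have h6 := Set.ncard_le_ncard hsub2 (Set.toFinite _)
    rw [Set.ncard_sdiff hsub (Set.toFinite _), hU] at h6
    exact h6
  omega

end Pool.Agent.Helper82.SO.CS
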