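import Pool.Agent.Helper77.SO.St

/-!
# MP_7a9ddc_co, project SO: module UN (union of two blocking sets)
-/

set_option autoImplicit false

namespace Pool.Agent.Helper82.SO.UN

open Equiv Equiv.Perm Pool.Agent.Helper35.PM Pool.Agent.Helper77.HY Pool.Agent.Helper77.OF4
  Pool.Agent.Helper77.SO

theorem z2 (x : ZMod 2) : x = 0 ∨ x = 1 := by
  revert x
  decide

theorem ex_one {V D : Type} {M : PMap V D} {p : D → ZMod 2} (h : Sep M p) :
    ∃ a, OddD M a ∧ p a = 1 := by
  obtain ⟨a, b, ha, hb, hab⟩ := h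
  rcases z2 (p a) with h1 | h1
  · rcases z2 (p b) with h2 | h2
    · exact absurd (h1.trans h2.symm) hab
    · exact ⟨b, hb, h2⟩
  · exact ⟨a, ha, h1⟩

theorem ex_zero {V D : Type} {M : PMap V D} {p : D → ZMod 2} (h : Sep M p) :
    ∃ a, OddD M a ∧ p a = 0 := by
  obtain ⟨a, b, ha, hb, hab⟩ := h
  rcases z2 (p a) with h1 | h1
  · exact ⟨a, ha, h1⟩
  · rcases z2 (p b) with h2 | h2
    · exact ⟨b, hb, h2⟩
    · exact absurd (h1.trans h2.symm) hab

theorem cnt {D : Type} [Finite D] (p q : D → ZMod 2) :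
    {d | p d = 1}.ncard = {d | p d * q d = 1}.ncard + {d | p d + p d * q d = 1}.ncard := by
  rw [← Set.ncard_union_eq]
  · congr 1
    ext d
    simp only [Set.mem_ofPred_eq, Set.mem_union]
    rcases z2 (p d) with h1 | h1 <;> rcases z2 (q d) with h2 | h2 <;> rw [h1, h2] <;> decide
  · rw [Set.disjoint_left]
    intro d h1 h2
    simp only [Set.mem_ofPred_eq] at h1 h2
    revert h1 h2
    rcases z2 (p d) with h1 | h1 <;> rcases z2 (q d) with h2 | h2 <;> rw [h1, h2] <;> decide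

theorem cnt' {D : Type} [Finite D] (p q : D → ZMod 2) :
    {d | p d + q d + p d * q d = 1}.ncard =
      {d | p d = 1}.ncard + {d | q d + p d * q d = 1}.ncard := by
  rw [← Set.ncard_union_eq]
  · congr 1
    ext d
    simp only [Set.mem_ofPred_eq, Set.mem_union]
    rcases z2 (p d) with h1 | h1 <;> rcases z2 (q d) with h2 | h2 <;> rw [h1, h2] <;> decide
  · rw [Set.disjoint_left]
    intro d h1 h2
    simp only [Set.mem_ofPred_eq] at h1 h2
    revert h1 h2
    rcases z2 (p d) with h1 | h1 <;> rcases z2 (q d) with h2 | h2 <;> rw [h1, h2] <;> decide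

/-- the first case: all odd darts in `{p = 1}` are in `{q = 1}` -/
theorem case1 (hPar : StPar) (hSub : StSub2) {V D : Type} [Finite D] (M : PMap V D) (L : ℕ)
    (p q : D → ZMod 2) (hHC : HC M L) (hp : FC M p) (hq : FC M q) (sp : Sep M p)
    (sq : Sep M q) (cp : cut M p ≤ 2 * L + 2) (cq : cut M q ≤ 2 * L + 2)
    (h : ∀ d, OddD M d → p d = 1 → q d = 1) :
    Sep M (fun a => p a + q a + p a * q a) ∧
      cut M (fun a => p a + q a + p a * q a) ≤ 2 * L + 2 := by
  have hpq : FC M (fun a => p a * q a) := fun d => by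
    show p (M.φ d) * q (M.φ d) = p d * q d
    rw [hp d, hq d]
  have hp' : FC M (fun a => p a + p a * q a) := fun d => by
    show p (M.φ d) + p (M.φ d) * q (M.φ d) = p d + p d * q d
    rw [hp d, hq d]
  obtain ⟨a, ha, ha1⟩ := ex_one sp
  obtain ⟨b, hb, hb0⟩ := ex_zero sp
  obtain ⟨c, hc, hc0⟩ := ex_zero sq
  have hc1 : p c = 0 := by
    rcases z2 (p c) with h1 | h1
    · exact h1
    · exact absurd ((h c hc h1).symm.trans hc0) (by decide)
  obtain ⟨s1, -⟩ := hSub V D M p q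
  obtain ⟨k1, hk1, hk1o, -⟩ := hPar V D M _ hpq
  obtain ⟨k3, hk3, hk3o, hk3s⟩ := hPar V D M _ hp'
  obtain ⟨kp, hkp, hkpo, -⟩ := hPar V D M p hp
  have hS1 : Sep M (fun a => p a * q a) := by
    refine ⟨a, b, ha, hb, ?_⟩
    show p a * q a ≠ p b * q b
    rw [ha1, hb0, h a ha ha1, zero_mul]
    decide
  have hge := hHC _ hpq hS1
  have hk3e : ¬ Odd k3 := by
    intro hodd
    obtain ⟨x, hx, hx1⟩ := ex_one (hk3s hodd)
    revert hx1
    show p x + p x * q x = 1 → False
    rcases z2 (p x) with h1 | h1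
    · rw [h1, zero_mul, zero_add]
      decide
    · rw [h1, h x hx h1]
      decide
  have hcnt := cnt p q
  refine ⟨⟨a, c, ha, hc, ?_⟩, ?_⟩
  · show p a + q a + p a * q a ≠ p c + q c + p c * q c
    rw [ha1, h a ha ha1, hc0, hc1]
    decide
  · have h3 : ¬ Odd {d | p d + p d * q d = 1}.ncard := fun h4 => hk3e (hk3o.2 h4)
    rw [Nat.odd_iff] at hk1o hkpo h3
    rw [Nat.odd_iff] at hk1o hkpo
    omega

theorem main (hPar : StPar) (hSub : StSub2) : StUn := by
  intro V D _ M L p q e hL hHC hp hq sp sq cp cq pe qe pie qie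
  have hpq : FC M (fun a => p a * q a) := fun d => by
    show p (M.φ d) * q (M.φ d) = p d * q d
    rw [hp d, hq d]
  have hor : FC M (fun a => p a + q a + p a * q a) := fun d => by
    show p (M.φ d) + q (M.φ d) + p (M.φ d) * q (M.φ d) = p d + q d + p d * q d
    rw [hp d, hq d]
  have hp' : FC M (fun a => p a + p a * q a) := fun d => by
    show p (M.φ d) + p (M.φ d) * q (M.φ d) = p d + p d * q d
    rw [hp d, hq d]
  have hq' : FC M (fun a => q a + p a * q a) := fun d => by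
    show q (M.φ d) + p (M.φ d) * q (M.φ d) = q d + p d * q d
    rw [hp d, hq d]
  refine ⟨hor, ?_⟩
  by_cases h1 : ∀ d, OddD M d → p d = 1 → q d = 1
  · exact case1 hPar hSub M L p q hHC hp hq sp sq cp cq h1
  by_cases h2 : ∀ d, OddD M d → q d = 1 → p d = 1
  · have h3 := case1 hPar hSub M L q p hHC hq hp sq sp cq cp h2
    have h4 : (fun a => q a + p a + q a * p a) = fun a => p a + q a + p a * q a := by
      funext a
      ring
    rw [h4] at h3
    exact h3
  push Not at h1 h2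
  obtain ⟨a, ha, ha1, ha2⟩ := h1
  obtain ⟨b, hb, hb1, hb2⟩ := h2
  have ha0 : q a = 0 := (z2 (q a)).resolve_right ha2
  have hb0 : p b = 0 := (z2 (p b)).resolve_right hb2
  obtain ⟨s1, s2⟩ := hSub V D M p q
  obtain ⟨k1, hk1, hk1o, hk1s⟩ := hPar V D M _ hpq
  obtain ⟨k2, hk2, hk2o, hk2s⟩ := hPar V D M _ hor
  obtain ⟨k3, hk3, hk3o, -⟩ := hPar V D M _ hp'
  obtain ⟨k4, hk4, hk4o, -⟩ := hPar V D M _ hq'
  obtain ⟨kp, hkp, hkpo, -⟩ := hPar V D M p hp
  have hS3 : Sep M (fun a => p a + p a * q a) := by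
    refine ⟨a, b, ha, hb, ?_⟩
    show p a + p a * q a ≠ p b + p b * q b
    rw [ha1, hb0, ha0, hb1]
    decide
  have hS4 : Sep M (fun a => q a + p a * q a) := by
    refine ⟨a, b, ha, hb, ?_⟩
    show q a + p a * q a ≠ q b + p b * q b
    rw [ha1, hb0, ha0, hb1]
    decide
  have g3 := hHC _ hp' hS3
  have g4 := hHC _ hq' hS4
  have hN : 1 ≤ {e | p e = 1 ∧ q e = 1 ∧ p (M.ι e) = 0 ∧ q (M.ι e) = 0}.ncard := by
    rw [Nat.one_le_iff_ne_zero, Ne, Set.ncard_eq_zero (Set.toFinite _)]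
    intro h
    have h5 : M.ι e ∈ {e | p e = 1 ∧ q e = 1 ∧ p (M.ι e) = 0 ∧ q (M.ι e) = 0} := by
      refine ⟨pie, qie, ?_, ?_⟩
      · rw [M.inv e]
        exact pe
      · rw [M.inv e]
        exact qe
    rw [h] at h5
    exact h5
  have hc1 := cnt p q
  have hc2 := cnt' p q
  rw [Nat.even_iff] at hL
  have e1 : kp = L + 1 := by omega
  have e3 : k3 = L := by omega
  have e4 : k4 = L := by omega
  have o3 : ¬ Odd {d | p d + p d * q d = 1}.ncard := fun h4 => by
    have h5 := hk3o.2 h4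
    rw [Nat.odd_iff] at h5
    omega
  have o4 : ¬ Odd {d | q d + p d * q d = 1}.ncard := fun h4 => by
    have h5 := hk4o.2 h4
    rw [Nat.odd_iff] at h5
    omega
  have op : Odd {d | p d = 1}.ncard := hkpo.1 (by
    rw [Nat.odd_iff]
    omega)
  rw [Nat.odd_iff] at o3 o4 op
  have o1 : Odd {d | p d * q d = 1}.ncard := by
    rw [Nat.odd_iff]
    omega
  have o2 : Odd {d | p d + q d + p d * q d = 1}.ncard := by
    rw [Nat.odd_iff]
    omega
  have k1o : Odd k1 := hk1o.2 o1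
  have g1 := hHC _ hpq (hk1s k1o)
  rw [Nat.odd_iff] at k1o
  refine ⟨hk2s (hk2o.2 o2), ?_⟩
  omega

end Pool.Agent.Helper82.SO.UN
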